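import Pool.Agent.Q28.PV.Main

/-!
# Abel-Jacobi maps on algebraically trivial cycles and the vanishing of products

For a prime `p` consider the `p`-adic Abel-Jacobi maps `CH^j(X)_hom → H^1(K, H^(2j-1)(X, ℚ_p(j)))` of
the smooth projective varieties over a number field `K`, and their `ℚ_p`-linear extensions, with the
Selmer groups `H^1_f` (an `AJTheory` with coefficient field `ℚ_p`), for one or several primes `p`.
Their restriction to algebraically trivial cycles is described by homologically trivial
correspondences from curves, without Abel-Jacobi maps: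

* the kernel on `CH^j(X)_alg` consists of the classes `Γ_* a` with `T` a curve, `a ∈ CH^1(T)_hom`, and
  `Γ ∈ CH^j(T × X)` homologically trivial; the `ℚ_p`-linear extension is injective on
  `CH^j(X)_alg ⊗ ℚ_p` if and only if the homologically trivial `Γ ∈ CH^j(T × X)` kill the Jacobians
  `CH^1(T)_hom`, a condition which does not involve `p`;
* this holds for all `X` (of dimension `2i + 1` and `j = i + 1`, for one prime `p`) if and only if the
  product of a homologically trivial and of an algebraically trivial cycle on a variety is always
  zero, if and only if `x × a = 0` for `x` homologically trivial and `a ∈ CH^1(T)_hom`;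
* if this holds, then the Abel-Jacobi map is an isomorphism from `e (CH^(i+1)(X)_alg ⊗ ℚ_p)` onto
  `H^1_f(K, e H^(2i+1)(X, ℚ_p(i+1)))` for all the motives `(X, e)` of level one, if and only if it is
  onto `H^1_f` in the case of curves, `i = 0` (finiteness of the `p`-primary part of the
  Tate-Shafarevich groups of the Jacobians).
-/

open CategoryTheory AlgebraicGeometry

universe u v w w'

namespace Pool.Agent.Results.MP_787500_nt.AlgebraicallyTrivialCycles

open Pool.Agent.H914 Pool.Agent.H914.VarClass Pool.Agent.H914.VarClass.Obj Pool.Agent.W492.BB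
  Pool.Agent.Q28.PV

/-- **Abel-Jacobi maps on algebraically trivial cycles.** Let `C` be the Chow theory (rational
coefficients) and `H` a Weil cohomology theory on a class of smooth projective varieties closed under
products (over a number field), and, for the indices `p` of a nonempty family (a set of primes),
`D p` the Abel-Jacobi maps with coefficients in `F p` (`= ℚ_p`); `hD` consists of three consequences of
the theory of abelian varieties (Poincare reducibility, injectivity of the Kummer map, sums of
algebraically trivial cycles are algebraically trivial).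

1. The kernel of the Abel-Jacobi map on `CH^j(X)_alg` is the set of the classes `Γ_* a`, `T` a curve,
  `Γ ∈ CH^j(T × X)` homologically trivial, `a ∈ CH^1(T)_hom`.
2. For all `p`, `X` and `j`: the `F`-linear Abel-Jacobi map is injective on `CH^j(X)_alg ⊗ F` if and
  only if the homologically trivial cycles on `T × X` of codimension `j`, for all curves `T`, act as
  zero on `CH^1(T)_hom`.
3. Equivalent: for one `p`, the Abel-Jacobi map is injective on `CH^(i+1)(X)_alg ⊗ F` for all
  `i` and all `X` of dimension `2i + 1`; for all `p`, `X` and `j` it is injective on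
  `CH^j(X)_alg ⊗ F`; for all curves `T` and all `X`, homologically trivial cycles on `T × X` kill
  `CH^1(T)_hom`; for all `X`, the product of a homologically trivial and of an algebraically trivial
  cycle class vanishes; `x × a = 0` for all homologically trivial `x` and all `a ∈ CH^1(T)_hom`.
4. If the statements of 3 hold, then for each `p`: the Abel-Jacobi map is an isomorphism from
  `e (CH^(i+1)(X)_alg ⊗ F)` onto `e sel` (`= H^1_f(K, e V)`) for all `i`, `X` and `e` of level one if
  and only if it is onto `sel` (`= H^1_f`) for all curves. -/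
theorem result {k : Type u} [Field k] {𝒱 : VarClass k} {C : TheoryData.{u, v, 0} 𝒱 ℚ}
    [Pool.Agent.TH133.IsChowProj C] {K : Type w} [Field K] {H : WeilTheoryData.{u, v, w} C K}
    [Pool.Agent.TH133.IsWeilProj H] {ι : Type} [Nonempty ι] {F : ι → Type} [∀ p, Field (F p)]
    [∀ p, Algebra ℚ (F p)] (D : ∀ p, AJTheory.{u, v, w, w'} H (F p)) (hD : ∀ p, IsAbelian (D p)) :
    (∀ (p : ι) (X : 𝒱.Obj) (j : ℕ) (z : C.A X),
      (AlgTriv H X j z ∧ (D p).aj X j z = 0) ↔ DoublyTriv H X j z) ∧
    (∀ (p : ι) (X : 𝒱.Obj) (j : ℕ), InjOn (D p) X j (AlgTriv H X j) ↔ KillsJacobians H X j) ∧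
    [∃ p : ι, InjMiddle (D p),
      ∀ p : ι, InjAll (D p),
      ∀ (X : 𝒱.Obj) (j : ℕ), KillsJacobians H X j,
      ∀ (X : 𝒱.Obj) (i j : ℕ) (x y : C.A X), HomTriv H X i x → AlgTriv H X j y → x * y = 0,
      ∀ (X T : 𝒱.Obj) (i : ℕ) (x : C.A X) (a : C.A T), T.dim = 1 → HomTriv H X i x →
        HomTriv H T 1 a → C.ext x a = 0].TFAE ∧
    ((∀ (X : 𝒱.Obj) (j : ℕ), KillsJacobians H X j) → ∀ p : ι,
      (IsoLevelOne (D p) ↔ OntoForCurves (D p))) :=
  final D hD

end Pool.Agent.Results.MP_787500_nt.AlgebraicallyTrivialCycles
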