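import Pool.Agent.Q274.BKC.Tw

/-!
# The Bloch–Kato Selmer groups of CM motives of all weights at once

Let `q ≡ 7 mod 8` be a prime, `K = ℚ(√-q)`, `s ∈ K` with `s² = -q`. The prime `2` splits in `K`: `v` is the
prime above `2` at which `s` is `3` modulo `4` and `v'` is the prime at which `s` is `1` modulo `4`; `t` is the
image of `s` in `K_v = ℚ_2`. Let `A(q)` be the elliptic curve (for `q = 7`: `X_0(49)`) or the abelian variety
of Gross with complex multiplication by the integers of `K`, with Hecke character `ψ` (of conductor `√-q`,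
`ψ((β)) = (A / q) β` for `β = A + B s`, `A`, `B` integers). For `i ≥ 0` and a positive squarefree integer `D`
consider the motive `M_i(D)` of the Hecke character `ψ^(i+1) ψ'^(-i)`, `ψ'` the conjugate of `ψ`, twisted by
the quadratic character of `(-1)^i D`. It is polarized and of weight `-1`. For `q = 7` it is defined over `ℚ`,
with coefficients in `ℚ`, and cut out by an idempotent correspondence in `h^(2i+1)(X)(i+1)`, where `X`, of
dimension `2 i + 1`, is the product of the elliptic curve twisted by `(-1)^i D` and of `2 i` copies of the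
elliptic curve: for `i = 0` it is `h^1(1)` of the elliptic curve, and for `i ≥ 1` these are pieces of the
intermediate cohomology of varieties of dimension `3, 5, 7, …`. (For `q > 7` take products of `2 i + 1` abelian
varieties; there are coefficients of odd degree, with exactly one place over `v` where the values of `χ` below
are in `ℤ_2`, and the theorem is about this place.) The restriction to `G_K` of the `2`-adic realization of
`M_i(D)` is the sum of a character `χ : G_K → ℤ_2^*` and of its conjugate; `χ` has the Hodge–Tate weight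
`i + 1` at `v` and `-i` at `v'`, and a Frobenius element at a prime `w` with `w^n = (A + B s)`, `n` odd,
`w ∤ 2 q D`, satisfies
`χ(Frob)^n = (A / q) ((-1)^i D / N(w)^n) (A + B t)^(i+1) / (A - B t)^i`. The theorem is about all the
characters `χ` with this property (`HasWeight`; `χ` exists by the theory of complex multiplication, which is
not used here, and is unique by Chebotarev's theorem).

The group `H¹_f(K, ℚ_2(χ))` of Bloch and Kato consists of the classes of the continuous cocycles which are
coboundaries on the inertia groups of all primes not above `2` and on the decomposition groups of the primes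
above `v'`, with no condition at `v` (the Hodge–Tate weight `i + 1` is positive at `v` and `-i ≤ 0` at `v'`, so
that the local groups `H¹_f` are everything at `v` and zero at `v'`). It is the group `H¹_f(ℚ, M_i(D)_2)`.

Let `D` be in the following class: all prime factors are `1` modulo `4` and different from `q`, and
`2 D ≡ q - 5` modulo `16`. Let `R(D)` be the following symmetric matrix over `𝔽₂`, with rows and columns
indexed by the prime factors `p` of `D` which split in `K`: the entry at `(p, p')` is `0` if `p'` is a square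
modulo `p` and `1` otherwise; the diagonal entry at `p` is the sum of the symbols of all the other prime
factors of `D` modulo `p` and of the symbol which is `0` if `-q` is a fourth power modulo `p` and `1`
otherwise. The matrix does not depend on the weight.

**Theorem.** (1) For all `D` of the class and ALL weights `i ≥ 0`:
`dim H¹_f(K, ℚ_2(χ)) ≤ 2 corank R(D)`. So, if `R(D)` is nonsingular, `H¹_f = 0` for all the weights
`i = 0, 1, 2, …` at once, and the Abel–Jacobi maps of all the motives `M_i(D)`, in all the dimensions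
`2 i + 1`, are surjective onto the Bloch–Kato Selmer groups.
(2) Let `m_1, …, m_M` be different positive squarefree integers of the class whose prime factors are `1`
modulo `8` or inert in `K` and `5` modulo `8`. For the squarefree `D` with all prime factors `≠ q` and `1`
modulo `8` the twists `m_j D` (modulo squares) are in the class, and the coranks of `R(m_1 D), …, R(m_M D)`
are asymptotically independent with the law `α(b) = κ / ((2 - 1) (4 - 1) ⋯ (2^b - 1))`,
`κ = (1 - 1/2) (1 - 1/8) (1 - 1/32) ⋯ = 0.4194…`. So for (exactly) the proportion `κ^M` of the `D` all the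
matrices are nonsingular, and for these `D` the groups `H¹_f` of all the `M` twists vanish in all weights.

The proof of (1): for all `i` the character `χ` modulo `4` is the quadratic character of `K(√(D s))`
(reciprocity in `K` and Chebotarev's theorem). The reduction modulo `2` of a lattice of Selmer cocycles gives
classes in `K^* / K^{*2}` which satisfy the local conditions of a descent by an isogeny of degree two, and
these are bounded by Hilbert's theorem 90 and the product formula for the symbols `(x, s)`. No L-function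
and no Euler system is used.
-/

set_option autoImplicit false
set_option linter.all false

namespace Pool.Agent.Results.MP_787500_nt.AllWeights

open NumberField IsDedekindDomain Filter
open scoped Classical Topology

/-- The absolute Galois group of `K`, with the Krull topology. -/
abbrev G (K : Type) [Field K] : Type := Gal(AlgebraicClosure K/K)

/-- The ring of all the algebraic integers in the algebraic closure of `K`. -/
abbrev Zbar (K : Type) [Field K] : Type := 𝓞 (AlgebraicClosure K)

section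
variable {K : Type} [Field K]

/-- The decomposition group of the maximal ideal `Q`. -/
def decomposition (Q : Ideal (Zbar K)) : Set (G K) := {σ | ∀ x : Zbar K, σ • x ∈ Q ↔ x ∈ Q}

/-- The inertia group of the maximal ideal `Q`. -/
def inertia (Q : Ideal (Zbar K)) : Set (G K) := {σ | ∀ x : Zbar K, σ • x - x ∈ Q}

/-- The value of the character `χ` in `ℚ_2`. -/
noncomputable def value (χ : G K →* ℤ_[2]ˣ) (σ : G K) : ℚ_[2] := ((χ σ : ℤ_[2]) : ℚ_[2])

/-- The restriction of `c` to `H` is a coboundary with values in `ℚ_2(χ)`. -/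
def CoboundaryOn (χ : G K →* ℤ_[2]ˣ) (c : G K → ℚ_[2]) (H : Set (G K)) : Prop :=
  ∃ y : ℚ_[2], ∀ σ ∈ H, c σ = (value χ σ - 1) * y

/-- `Q` is above the prime `v'` of `K` above `2` at which `s` is `1` modulo `4`: `Q` contains `2` and
`(1 - s) / 2`. -/
def AboveConj (s : K) (Q : Ideal (Zbar K)) : Prop := (2 : Zbar K) ∈ Q ∧
  ∃ z : Zbar K, z ∈ Q ∧ 2 * (z : AlgebraicClosure K) = 1 - algebraMap K (AlgebraicClosure K) s

/-- The continuous cocycles with values in `ℚ_2(χ)` which satisfy the conditions of Bloch and Kato: they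
are coboundaries on the inertia groups outside `2` and on the decomposition groups above `v'`. -/
def IsSelmer (s : K) (χ : G K →* ℤ_[2]ˣ) (c : G K → ℚ_[2]) : Prop :=
  Continuous c ∧ (∀ σ τ, c (σ * τ) = c σ + value χ σ * c τ) ∧
  (∀ Q : Ideal (Zbar K), Q.IsMaximal → (2 : Zbar K) ∉ Q → CoboundaryOn χ c (inertia Q)) ∧
  (∀ Q : Ideal (Zbar K), Q.IsMaximal → AboveConj s Q → CoboundaryOn χ c (decomposition Q))

/-- The space of these cocycles. -/
def selmer (s : K) (χ : G K →* ℤ_[2]ˣ) : Submodule ℚ_[2] (G K → ℚ_[2]) where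
  carrier := {c | IsSelmer s χ c}
  add_mem' := by
    rintro a b ⟨ha1, ha2, ha3, ha4⟩ ⟨hb1, hb2, hb3, hb4⟩
    refine ⟨ha1.add hb1, fun σ τ => ?_, fun Q h1 h2 => ?_, fun Q h1 h2 => ?_⟩
    · simp only [Pi.add_apply, ha2, hb2]; ring
    · obtain ⟨y, hy⟩ := ha3 Q h1 h2
      obtain ⟨z, hz⟩ := hb3 Q h1 h2
      exact ⟨y + z, fun σ hσ => by rw [Pi.add_apply, hy σ hσ, hz σ hσ]; ring⟩
    · obtain ⟨y, hy⟩ := ha4 Q h1 h2
      obtain ⟨z, hz⟩ := hb4 Q h1 h2
      exact ⟨y + z, fun σ hσ => by rw [Pi.add_apply, hy σ hσ, hz σ hσ]; ring⟩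
  zero_mem' := by
    refine ⟨continuous_const, fun σ τ => by simp, fun Q _ _ => ⟨0, fun σ _ => by simp⟩,
      fun Q _ _ => ⟨0, fun σ _ => by simp⟩⟩
  smul_mem' := by
    rintro k a ⟨ha1, ha2, ha3, ha4⟩
    refine ⟨ha1.const_smul k, fun σ τ => ?_, fun Q h1 h2 => ?_, fun Q h1 h2 => ?_⟩
    · simp only [Pi.smul_apply, ha2, smul_eq_mul]; ring
    · obtain ⟨y, hy⟩ := ha3 Q h1 h2
      exact ⟨k * y, fun σ hσ => by rw [Pi.smul_apply, hy σ hσ, smul_eq_mul]; ring⟩
    · obtain ⟨y, hy⟩ := ha4 Q h1 h2
      exact ⟨k * y, fun σ hσ => by rw [Pi.smul_apply, hy σ hσ, smul_eq_mul]; ring⟩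

/-- The space of the coboundaries `σ ↦ (χ(σ) - 1) y` (they are in `selmer s χ`). -/
noncomputable def coboundaries (χ : G K →* ℤ_[2]ˣ) : Submodule ℚ_[2] (G K → ℚ_[2]) :=
  Submodule.span ℚ_[2] {fun σ => value χ σ - 1}

/-- The Bloch–Kato Selmer group `H¹_f(K, ℚ_2(χ))`: the cocycles modulo the coboundaries. -/
abbrev H1f (s : K) (χ : G K →* ℤ_[2]ˣ) : Type :=
  selmer s χ ⧸ (coboundaries χ).comap (selmer s χ).subtype

end

/-- `σ` is a Frobenius element at the prime `w` of `K`: `σ x ≡ x ^ N(w)` modulo some maximal ideal above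
`w` of the ring of all algebraic integers. -/
def IsFrobenius {K : Type} [Field K] [NumberField K] (w : HeightOneSpectrum (𝓞 K)) (σ : G K) : Prop :=
  ∃ Q : Ideal (Zbar K), Q.IsMaximal ∧ Q.comap (algebraMap (𝓞 K) (Zbar K)) = w.asIdeal ∧
    ∀ x : Zbar K, σ • x - x ^ Ideal.absNorm w.asIdeal ∈ Q

/-- `χ` is the 2-adic character of the Hecke character `ψ^(i+1) ψ'^(-i)` twisted by `(-1)^i D`; `t` is the
image of `s` at `v`. For the primes `w` not dividing `2 q D`, odd `n` with `w^n = (β)`, `β = A + B s`: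
`χ(Frob_w)^n (A - B t)^i = (A / q) ((-1)^i D / (A² + q B²)) (A + B t)^(i+1)`. -/
def HasWeight {K : Type} [Field K] [NumberField K] (q D i : ℕ) (s : K) (t : ℤ_[2])
    (χ : G K →* ℤ_[2]ˣ) : Prop :=
  ∀ (w : HeightOneSpectrum (𝓞 K)) (σ : G K) (n : ℕ) (A B : ℤ) (β : 𝓞 K),
    ((2 * q * D : ℕ) : 𝓞 K) ∉ w.asIdeal → IsFrobenius w σ → Odd n →
    w.asIdeal ^ n = Ideal.span {β} → (β : K) = A + B * s →
    ((χ σ : ℤ_[2]) ^ n) * ((A : ℤ_[2]) - B * t) ^ i =
      ((jacobiSym A q * jacobiSym ((-1) ^ i * D) (A ^ 2 + q * B ^ 2).natAbs : ℤ) : ℤ_[2]) *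
        ((A : ℤ_[2]) + B * t) ^ (i + 1)

/-- The class of the `D`: squarefree, all prime factors `1` modulo `4` and `≠ q`, `2 D ≡ q - 5` mod `16`. -/
def Class (q D : ℕ) : Prop := Squarefree D ∧ (∀ p : ℕ, p.Prime → p ∣ D → p % 4 = 1 ∧ p ≠ q) ∧
  (16 : ℤ) ∣ 2 * D + 5 - q

/-- The prime factors of `D` which split in `ℚ(√-q)`. -/
noncomputable def splitPrimes (q D : ℕ) : Finset ℕ :=
  D.primeFactors.filter fun p => IsSquare (-(q : ZMod p))

/-- `0` if `a` is a square modulo `p` and `1` otherwise. -/
noncomputable def nonsquare (p a : ℕ) : ZMod 2 := if IsSquare (a : ZMod p) then 0 else 1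

/-- `0` if `-q` is a fourth power modulo `p` and `1` otherwise. -/
noncomputable def nonfourth (q p : ℕ) : ZMod 2 := if ∃ y : ZMod p, y ^ 4 = -(q : ZMod p) then 0 else 1

/-- The matrix `R(D)`. -/
noncomputable def R (q D : ℕ) : Matrix (splitPrimes q D) (splitPrimes q D) (ZMod 2) :=
  Matrix.of fun i j => if i = j then ∑ r ∈ D.primeFactors.erase i, nonsquare i r + nonfourth q i
    else nonsquare i j

/-- The corank of `R(D)`: the dimension of its kernel. -/
noncomputable def corank (q D : ℕ) : ℕ :=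
  Module.finrank (ZMod 2) (LinearMap.ker (Matrix.mulVecLin (R q D)))

/-- The squarefree integers with all prime factors `1` modulo `8` and `≠ q`. -/
def Class8 (q D : ℕ) : Prop := Squarefree D ∧ ∀ p : ℕ, p.Prime → p ∣ D → p % 8 = 1 ∧ p ≠ q

/-- The factors `m_j`: in the class, all prime factors `1` mod `8` or inert in `ℚ(√-q)` and `5` mod `8`. -/
def Factor (q m : ℕ) : Prop := Class q m ∧
  ∀ p : ℕ, p.Prime → p ∣ m → p % 8 = 1 ∨ (p % 8 = 5 ∧ ¬ IsSquare (-(q : ZMod p)))

/-- The squarefree part of `m D`, for squarefree `m` and `D`. -/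
def times (m D : ℕ) : ℕ := m * D / Nat.gcd m D ^ 2

/-- The proportion of the `D ≤ X` with property `T` among those with all prime factors `1` mod `8`. -/
noncomputable def proportion (q : ℕ) (T : ℕ → Prop) (X : ℕ) : ℝ :=
  (((Finset.Icc 1 X).filter fun D => Class8 q D ∧ T D).card : ℝ) /
    (((Finset.Icc 1 X).filter fun D => Class8 q D).card : ℝ)

/-- The number `κ = (1 - 1/2) (1 - 1/8) (1 - 1/32) ⋯`. -/
noncomputable def κ : ℝ := ∏' i : ℕ, (1 - (1 / 2 : ℝ) ^ (2 * i + 1))

/-- The law `α(b) = κ / ((2 - 1) (4 - 1) ⋯ (2 ^ b - 1))`. -/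
noncomputable def α (b : ℕ) : ℝ := κ / ∏ i ∈ Finset.range b, ((2 : ℝ) ^ (i + 1) - 1)

/-- **All weights at once.** For all fields `K = ℚ(√-q)`, all `D` of the class, all `i ≥ 0` and all
continuous characters `χ` of weight `i`: the dimension of `H¹_f(K, ℚ_2(χ))` is at most `2 corank R(D)`. -/
def AllWeightsAtOnce (q : ℕ) : Prop :=
  ∀ (K : Type) [Field K] [NumberField K] (s : K) (t : ℤ_[2]), Module.finrank ℚ K = 2 →
    s ^ 2 = -(q : K) → t ^ 2 = -(q : ℤ_[2]) → (4 : ℤ_[2]) ∣ t - 3 → ∀ D : ℕ, Class q D →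
    ∀ (i : ℕ) (χ : G K →* ℤ_[2]ˣ), Continuous χ → HasWeight q D i s t χ →
      Module.rank ℚ_[2] (H1f s χ) ≤ ((2 * corank q D : ℕ) : Cardinal) ∧
      (corank q D = 0 → ∀ x : H1f s χ, x = 0)

/-- **The joint law** of the coranks of the twists `m_1 D, …, m_M D`. -/
def JointLaw (q : ℕ) : Prop :=
  ∀ (M : ℕ) (m : Fin M → ℕ), Function.Injective m → (∀ j, Factor q (m j)) →
    (∀ D, Class8 q D → ∀ j, Class q (times (m j) D)) ∧
    ∀ b : Fin M → ℕ, Tendsto (proportion q fun D => ∀ j, corank q (times (m j) D) = b j) atTop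
      (𝓝 (∏ j, α (b j)))

section proof

open Pool.Agent.Q274.BKC

lemma sel_iff {K : Type} [Field K] (s : K) (χ : G K →* ℤ_[2]ˣ) (c : G K → ℚ_[2]) :
    IsSelmer s χ c ↔ IsSel s χ c :=
  ⟨fun h => ⟨h.1, h.2.1, h.2.2.1, h.2.2.2⟩, fun h => ⟨h.cont, h.coc, h.ine, h.dec⟩⟩

lemma sel_eq {K : Type} [Field K] (s : K) (χ : G K →* ℤ_[2]ˣ) : selmer s χ = Sel s χ :=
  Submodule.ext fun c => sel_iff s χ c

/-- the dimension of the quotient by the coboundaries -/
lemma rank_eq {K : Type} [Field K] (s : K) (χ : G K →* ℤ_[2]ˣ) :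
    Module.rank ℚ_[2] (H1f s χ) = Module.rank ℚ_[2] (Pool.Agent.Q274.BKC.H1f s χ) := by
  have key : ∀ W W' : Submodule ℚ_[2] (G K → ℚ_[2]), W = W' →
      Module.rank ℚ_[2] (W ⧸ (coboundaries χ).comap W.subtype) =
      Module.rank ℚ_[2] (W' ⧸ (B1 χ).comap W'.subtype) := by
    rintro W _ rfl
    rfl
  exact key _ _ (sel_eq s χ)

lemma cl_iff (q D : ℕ) : Class q D ↔ Cl q D :=
  ⟨fun h => ⟨h.1, h.2.1, h.2.2⟩, fun h => ⟨h.sqf, h.one, h.cong⟩⟩

lemma fac_iff {q m : ℕ} (h : Factor q m) : Clm q m ∧ (16 : ℤ) ∣ 2 * m + 5 - q :=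
  ⟨⟨h.1.1, fun p hp hm => ⟨h.2 p hp hm, (h.1.2.1 p hp hm).2⟩⟩, h.1.2.2⟩

end proof

theorem result (q : ℕ) (hq : q.Prime) (hq8 : q % 8 = 7) :
    AllWeightsAtOnce q ∧ JointLaw q ∧ 0.4194 < κ ∧ κ < 0.4195 := by
  refine ⟨?_, ?_, Pool.Agent.Q274.BKC.kappa_bounds.1, Pool.Agent.Q274.BKC.kappa_bounds.2⟩
  · intro K _ _ s t hK hs ht ht4 D hD i χ hc hχ
    have h := Pool.Agent.Q274.BKC.main K q D i s t χ hq hq8 ((cl_iff q D).1 hD) hs hK ht ht4 hc hχ
    rw [← rank_eq] at h
    refine ⟨h, fun h0 x => ?_⟩
    have h1 : Module.rank ℚ_[2] (H1f s χ) = 0 := by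
      have h2 : corank q D = Pool.Agent.Q274.BKC.corank q D := rfl
      rw [← h2, h0] at h
      simpa using h
    have h3 := rank_zero_iff.1 h1
    exact Subsingleton.elim _ _
  · intro M m hm hf
    refine ⟨fun D hD j => ?_, fun b => ?_⟩
    · obtain ⟨h1, h2⟩ := fac_iff (hf j)
      exact (cl_iff _ _).2 (Pool.Agent.Q274.BKC.tw_Cl h1 h2 hD)
    · have h := Pool.Agent.Q274.BKC.t_LAW q hq hq8 M m b hm fun j => (fac_iff (hf j)).1
      rw [Pool.Agent.Q274.BKC.cR_eq] at h
      refine h.congr fun X => ?_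
      unfold proportion
      congr! 4

end Pool.Agent.Results.MP_787500_nt.AllWeights
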