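import Pool.Agent.Q283.LP.W9
import Pool.Agent.Q283.LP.W10
import Pool.Agent.Results.MP_787500_nt.AllWeights

/-!
# Bloch–Kato Selmer groups of all weights over the number fields inside almost every integer

We use the setting and the definitions of `MP_787500_nt.AllWeights` (helper274 and the team): `q ≡ 7 mod 8` is a
prime, `K = ℚ(√-q)`, `s ∈ K`, `s² = -q`, `t ∈ ℤ_2` the image of `s` at the prime `v` above `2` where it is `3` modulo
`4`, `v'` the conjugate prime; `M_i(D)` is the motive of the Hecke character `ψ^(i+1) ψ'^(-i)` twisted by the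
quadratic character of `(-1)^i D` (for `q = 7` it is a piece of `h^(2i+1)(i+1)` of the product of the twist of
`X_0(49)` by `(-1)^i D` and of `2 i` copies of `X_0(49)`, of dimension `2 i + 1`; it is polarized, of weight `-1`), and
`V_2 M_i(D)`, restricted to `G_K`, is the sum of a character `χ : G_K → ℤ_2^*` and of its conjugate. `HasWeight q D i s t χ`
gives the values of `χ` at the Frobenius elements. `R(D)` is the explicit symmetric matrix over `𝔽_2` on the prime
factors of `D` which split in `K`, `corank q D` the dimension of its kernel; it does not depend on the weight.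

**Over the fields.** For integers `d_1, …, d_n` let `F = ℚ(√d_1, …, √d_n)` and `L = K(√d_1, …, √d_n)`. The group
`H¹_f(F, V_2 M_i(N)) = H¹_f(L, ℚ_2(χ))` is the space of the continuous cocycles of `G_L` with values in `ℚ_2(χ)` which are
coboundaries on the inertia groups of `L` at all primes not above `2` (these are the intersections with `G_L` of the
inertia groups of `K`) and on the decomposition groups of `L` at the primes above `v'`, modulo the coboundaries
(the Hodge–Tate weight of `χ` is `i + 1` at `v` and `-i` at `v'`). `BelongsTo q N i s t χ`: `χ` is the character of `M_i(N)`;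
it is asked that for all `d ≥ 1` the twist of `χ` by the quadratic character of `d` has the weight `i` for the squarefree
part of `N d`. (Such a `χ` exists by the theory of complex multiplication and is unique by Chebotarev's theorem;
both facts are not used.)

**Theorem.** There is ONE set `S` of positive integers of NATURAL DENSITY `1`, and of relative density `1` in the set
`Wide` of the squarefree integers with all prime factors `≡ 1 mod 4`, which is good for ALL the primes `q ≡ 7 mod 8`, ALL the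
weights `i ≥ 0` and ALL the base points, in the following sense. For `D` let `divs D` be the set of the
divisors `d` of `D` which are in `Wide` and `≡ 1 mod 8`.
(1) For all `N` in the class of `q`, all `d_1, …, d_n` in `Wide`, `≡ 1 mod 8`, and ALL weights `i`:
    `dim H¹_f(L, ℚ_2(χ)) ≤ 2 ∑_T corank(N ∏_{l ∈ T} d_l)`, the sum over all the subsets `T` of `{1, …, n}` (the products are
    taken modulo squares). If the coranks vanish for all the nonempty `T`, the restriction
    `H¹_f(K, ℚ_2(χ)) → H¹_f(L, ℚ_2(χ))` is an isomorphism in ALL weights `i`: nothing new over `F`; nothing is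
    assumed on `N`. If the corank of `N` vanishes too, then `H¹_f(L, ℚ_2(χ)) = 0` and the Abel–Jacobi map of `M_i(N)` over the
    number field `F` is onto the Bloch–Kato group, in all the dimensions `2 i + 1`.
(2) For all different pairs `(N_j, T_j)`, `j ≤ M`, `N_j` in the class, `T_j` nonempty, and all `ε > 0`: for all large `D` in
    `S` and all sets `B` of vectors, the share of the `n`-tuples `d` of elements of `divs D` for which the vector of the
    coranks of `N_j ∏_{l ∈ T_j} d_l` is in `B` is within `ε` of the measure of `B` for the product of the laws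
    `α(b) = κ / ((2 - 1) (4 - 1) ⋯ (2^b - 1))`, `κ = (1 - 1/2) (1 - 1/8) (1 - 1/32) ⋯ = 0.4194…`.
(3) For different `N_1, …, N_M` in the class, `p = κ^(2^n - 1)` and all large `D` in `S`: for every set `Q` of indices the
    share of the tuples `d` which are independent modulo squares (`F` has degree `2^n`) and for which exactly the `N_j`, `j ∈ Q`,
    have vanishing coranks for all the nonempty `T` is within `ε` of `p^|Q| (1 - p)^(M - |Q|)`; the share of the `d` for
    which their frequency differs from `p` by `η` or more is at most `2 exp (- η² M / 4) + ε`.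
(4) So for a share `≥ p^M - ε` of the `d` the Selmer groups of ALL the `M_i(N_j)`, `j ≤ M`, `i ≥ 0`, are the same over `F` and
    over `ℚ`, and for a share `≥ 1 - (1 - p)^M - ε` those of one of the `M` families at least.
(5) For every finite set of base points `N` in the class there is an infinite sequence `d_1, d_2, …` of elements of `Wide`,
    `≡ 1 mod 8`, independent modulo squares, such that for all `n`, all these `N` and ALL weights `i` the Selmer groups of
    `M_i(N)` over `ℚ(√d_1, …, √d_n)` and over `ℚ` are the same.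

The proofs: (1) a transfer for the groups of Bloch and Kato and the theorem of `AllWeights`; (2) and (3) project LP
(all the linear patterns of divisors: the second moment of the share over the integers, a structure theorem for maximal
isotropic families, the large sieve of Heath-Brown), here with a condition on the parity of the number of the
prime factors `5` modulo `8`, and one diagonal argument over all `q` and all the families.
-/

set_option autoImplicit false
set_option linter.all false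

namespace Pool.Agent.Results.MP_787500_nt.AllWeightsInsideDivisors

open NumberField IsDedekindDomain Filter
open Pool.Agent.Results.MP_787500_nt.AllWeights (G Zbar decomposition inertia value AboveConj IsSelmer selmer
  coboundaries H1f HasWeight Class corank κ α)
open scoped Classical Topology

section
variable {K : Type} [Field K]

/-- The continuous cocycles of the subgroup `H` of `G_K` with values in `ℚ_2(χ)` which satisfy the conditions of
Bloch and Kato over the field of `H`. The inertia (decomposition) group of `Q` over this field is the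
intersection of that over `K` with `H`. -/
def IsSelmerOver (s : K) (χ : G K →* ℤ_[2]ˣ) (H : Subgroup (G K)) (c : H → ℚ_[2]) : Prop :=
  Continuous c ∧ (∀ σ τ : H, c (σ * τ) = c σ + value χ σ * c τ) ∧
  (∀ Q : Ideal (Zbar K), Q.IsMaximal → (2 : Zbar K) ∉ Q →
    ∃ y : ℚ_[2], ∀ σ : H, (σ : G K) ∈ inertia Q → c σ = (value χ σ - 1) * y) ∧
  (∀ Q : Ideal (Zbar K), Q.IsMaximal → AboveConj s Q →
    ∃ y : ℚ_[2], ∀ σ : H, (σ : G K) ∈ decomposition Q → c σ = (value χ σ - 1) * y)

theorem selmerOver_add {s : K} {χ : G K →* ℤ_[2]ˣ} {H : Subgroup (G K)} {a b : H → ℚ_[2]}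
    (ha : IsSelmerOver s χ H a) (hb : IsSelmerOver s χ H b) : IsSelmerOver s χ H (a + b) := by
  obtain ⟨ha1, ha2, ha3, ha4⟩ := ha
  obtain ⟨hb1, hb2, hb3, hb4⟩ := hb
  refine ⟨ha1.add hb1, fun σ τ => ?_, fun Q h1 h2 => ?_, fun Q h1 h2 => ?_⟩
  · simp only [Pi.add_apply, ha2, hb2]; ring
  · obtain ⟨y, hy⟩ := ha3 Q h1 h2
    obtain ⟨z, hz⟩ := hb3 Q h1 h2
    exact ⟨y + z, fun σ hσ => by rw [Pi.add_apply, hy σ hσ, hz σ hσ]; ring⟩
  · obtain ⟨y, hy⟩ := ha4 Q h1 h2
    obtain ⟨z, hz⟩ := hb4 Q h1 h2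
    exact ⟨y + z, fun σ hσ => by rw [Pi.add_apply, hy σ hσ, hz σ hσ]; ring⟩

theorem selmerOver_zero (s : K) (χ : G K →* ℤ_[2]ˣ) (H : Subgroup (G K)) : IsSelmerOver s χ H 0 :=
  ⟨continuous_const, fun σ τ => by simp, fun Q _ _ => ⟨0, fun σ _ => by simp⟩,
    fun Q _ _ => ⟨0, fun σ _ => by simp⟩⟩

theorem selmerOver_smul {s : K} {χ : G K →* ℤ_[2]ˣ} {H : Subgroup (G K)} (k : ℚ_[2]) {a : H → ℚ_[2]}
    (ha : IsSelmerOver s χ H a) : IsSelmerOver s χ H (k • a) := by
  obtain ⟨ha1, ha2, ha3, ha4⟩ := ha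
  refine ⟨ha1.const_smul k, fun σ τ => ?_, fun Q h1 h2 => ?_, fun Q h1 h2 => ?_⟩
  · simp only [Pi.smul_apply, ha2, smul_eq_mul]; ring
  · obtain ⟨y, hy⟩ := ha3 Q h1 h2
    exact ⟨k * y, fun σ hσ => by rw [Pi.smul_apply, hy σ hσ, smul_eq_mul]; ring⟩
  · obtain ⟨y, hy⟩ := ha4 Q h1 h2
    exact ⟨k * y, fun σ hσ => by rw [Pi.smul_apply, hy σ hσ, smul_eq_mul]; ring⟩

/-- The vector space of the functions on `H` with values in `ℚ_2`. -/
def Fn (H : Subgroup (G K)) : Type := H → ℚ_[2]

noncomputable instance fnGroup (H : Subgroup (G K)) : AddCommGroup (Fn H) :=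
  inferInstanceAs (AddCommGroup (H → ℚ_[2]))

noncomputable instance fnModule (H : Subgroup (G K)) : Module ℚ_[2] (Fn H) :=
  inferInstanceAs (Module ℚ_[2] (H → ℚ_[2]))

/-- The space of these cocycles. -/
def selmerOver (s : K) (χ : G K →* ℤ_[2]ˣ) (H : Subgroup (G K)) : Submodule ℚ_[2] (Fn H) where
  carrier := {c | IsSelmerOver s χ H c}
  add_mem' := by
    intro a b ha hb
    exact selmerOver_add ha hb
  zero_mem' := by
    exact selmerOver_zero s χ H
  smul_mem' := by
    intro k a ha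
    exact selmerOver_smul k ha

/-- The coboundaries on `H`. -/
noncomputable def coboundariesOver (χ : G K →* ℤ_[2]ˣ) (H : Subgroup (G K)) :
    Submodule ℚ_[2] (Fn H) :=
  Submodule.span ℚ_[2] {fun σ : H => value χ (σ : G K) - 1}

/-- The Bloch–Kato Selmer group `H¹_f(L, ℚ_2(χ))`, `L` the field of `H`. -/
abbrev H1fOver (s : K) (χ : G K →* ℤ_[2]ˣ) (H : Subgroup (G K)) : Type :=
  selmerOver s χ H ⧸ (coboundariesOver χ H).comap (selmerOver s χ H).subtype

/-- The dimension of `H¹_f(L, ℚ_2(χ))`. -/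
noncomputable def dimensionOver (s : K) (χ : G K →* ℤ_[2]ˣ) (H : Subgroup (G K)) : Cardinal :=
  Module.rank ℚ_[2] (H1fOver s χ H)

/-- The dimension of `H¹_f(K, ℚ_2(χ))`. -/
noncomputable def dimension (s : K) (χ : G K →* ℤ_[2]ˣ) : Cardinal := Module.rank ℚ_[2] (H1f s χ)

/-- `H¹_f(L, ℚ_2(χ)) = 0`. -/
def Vanishes (s : K) (χ : G K →* ℤ_[2]ˣ) (H : Subgroup (G K)) : Prop := ∀ x : H1fOver s χ H, x = 0

/-- The restriction `H¹_f(K, ℚ_2(χ)) → H¹_f(L, ℚ_2(χ))` is onto: every Selmer cocycle of `H` is the sum of the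
restriction of a Selmer cocycle of `G_K` and of a coboundary. -/
def Onto (s : K) (χ : G K →* ℤ_[2]ˣ) (H : Subgroup (G K)) : Prop :=
  ∀ c : H → ℚ_[2], IsSelmerOver s χ H c → ∃ C : G K → ℚ_[2], IsSelmer s χ C ∧
    ∃ y : ℚ_[2], ∀ σ : H, c σ = C σ + (value χ σ - 1) * y

/-- The restriction `H¹_f(K, ℚ_2(χ)) → H¹_f(L, ℚ_2(χ))` is onto (it is always injective), and the dimensions
are equal. -/
def Stable (s : K) (χ : G K →* ℤ_[2]ˣ) (H : Subgroup (G K)) : Prop :=
  Onto s χ H ∧ dimensionOver s χ H = dimension s χ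

/-- `ψ` is the quadratic character of `K(√a)`. -/
def IsQuadratic (a : K) (ψ : G K →* ℤ_[2]ˣ) : Prop :=
  ∀ y : AlgebraicClosure K, y ^ 2 = algebraMap K (AlgebraicClosure K) a →
    ∀ σ : G K, (σ y = y ∧ ψ σ = 1) ∨ (σ y = -y ∧ ψ σ = -1)

end

/-- The squarefree part of `n`. -/
def part (n : ℕ) : ℕ := ∏ p ∈ n.primeFactors.filter (fun p => n.factorization p % 2 = 1), p

/-- `χ` is the character of `M_i(N)`: for all `d ≥ 1` the twist of `χ` by the quadratic character of `d` has
the weight `i` for the squarefree part of `N d`. -/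
def BelongsTo {K : Type} [Field K] [NumberField K] (q N i : ℕ) (s : K) (t : ℤ_[2])
    (χ : G K →* ℤ_[2]ˣ) : Prop :=
  ∀ (d : ℕ) (ψ : G K →* ℤ_[2]ˣ), d ≠ 0 → IsQuadratic (d : K) ψ → HasWeight q (part (N * d)) i s t (χ * ψ)

/-- The field `K(√d_1, …, √d_n)`. -/
noncomputable def field (K : Type) [Field K] {n : ℕ} (d : Fin n → ℕ) :
    IntermediateField K (AlgebraicClosure K) :=
  IntermediateField.adjoin K {y | ∃ i, y ^ 2 = (d i : AlgebraicClosure K)}

/-- The absolute Galois group of `K(√d_1, …, √d_n)`, a subgroup of `G_K`. -/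
noncomputable def groupOf (K : Type) [Field K] {n : ℕ} (d : Fin n → ℕ) : Subgroup (G K) :=
  (field K d).fixingSubgroup

/-- `K = ℚ(√-q)`, `s² = -q`, and `t` is the square root of `-q` in `ℤ_2` which is `3` modulo `4`. -/
def Setting (q : ℕ) (K : Type) [Field K] [NumberField K] (s : K) (t : ℤ_[2]) : Prop :=
  Module.finrank ℚ K = 2 ∧ s ^ 2 = -(q : K) ∧ t ^ 2 = -(q : ℤ_[2]) ∧ (4 : ℤ_[2]) ∣ t - 3

/-- Squarefree, all prime factors `1` modulo `4`. -/
def Wide (D : ℕ) : Prop := Squarefree D ∧ ∀ p : ℕ, p.Prime → p ∣ D → p % 4 = 1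

/-- Squarefree, all prime factors `1` modulo `4`, and `1` modulo `8`. -/
def Sub (d : ℕ) : Prop := Wide d ∧ d % 8 = 1

/-- The `n`-tuples of elements of `Sub` which divide `D`. -/
noncomputable def tuples (n D : ℕ) : Finset (Fin n → ℕ) := Fintype.piFinset fun _ => D.divisors.filter Sub

/-- The share of the tuples with the property `P`. -/
noncomputable def share {n : ℕ} (D : ℕ) (P : (Fin n → ℕ) → Prop) : ℝ :=
  (((tuples n D).filter P).card : ℝ) / (tuples n D).card

/-- No product of the `d_i` over a nonempty set is a square. -/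
def Independent {n : ℕ} (d : Fin n → ℕ) : Prop :=
  ∀ T : Finset (Fin n), T.Nonempty → ¬ IsSquare (∏ i ∈ T, d i)

/-- The matrices of the twists of `N` by all the nontrivial characters of `ℚ(√d_1, …, √d_n)` are nonsingular. -/
def Good (q N : ℕ) {n : ℕ} (d : Fin n → ℕ) : Prop :=
  ∀ T : Finset (Fin n), T.Nonempty → corank q (part (N * ∏ l ∈ T, d l)) = 0

/-- The number of the good base points. -/
noncomputable def goods (q : ℕ) {M n : ℕ} (N : Fin M → ℕ) (d : Fin n → ℕ) : ℕ :=
  (Finset.univ.filter fun j => Good q (N j) d).card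

/-- The sum of the coranks of all the twists. -/
noncomputable def totalCorank (q N : ℕ) {n : ℕ} (d : Fin n → ℕ) : ℕ :=
  ∑ T : Finset (Fin n), corank q (part (N * ∏ l ∈ T, d l))

/-- **(1)** All the weights over the fields. -/
def OverFields (q : ℕ) : Prop :=
  ∀ (K : Type) [Field K] [NumberField K] (s : K) (t : ℤ_[2]), Setting q K s t → ∀ N : ℕ, Class q N →
    ∀ (n : ℕ) (d : Fin n → ℕ), (∀ l, Sub (d l)) → ∀ (i : ℕ) (χ : G K →* ℤ_[2]ˣ), Continuous χ →
      BelongsTo q N i s t χ →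
      dimensionOver s χ (groupOf K d) ≤ ((2 * totalCorank q N d : ℕ) : Cardinal) ∧
      (Good q N d → Stable s χ (groupOf K d)) ∧
      (Good q N d → corank q N = 0 → Vanishes s χ (groupOf K d))

/-- All the weights are stable over the field of `d`: for the twist `N`, all `i ≥ 0`. -/
def AllStable (q N : ℕ) {n : ℕ} (d : Fin n → ℕ) : Prop :=
  ∀ (K : Type) [Field K] [NumberField K] (s : K) (t : ℤ_[2]), Setting q K s t →
    ∀ (i : ℕ) (χ : G K →* ℤ_[2]ˣ), Continuous χ → BelongsTo q N i s t χ → Stable s χ (groupOf K d)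

/-- **(2)** The law of the coranks inside the integers of `S`. -/
def Law (q : ℕ) (S : ℕ → Prop) : Prop :=
  ∀ (M n : ℕ) (N : Fin M → ℕ) (T : Fin M → Finset (Fin n)), (∀ j, Class q (N j)) →
    (∀ j, (T j).Nonempty) → (∀ j l, j ≠ l → ¬ (N j = N l ∧ T j = T l)) → ∀ ε : ℝ, 0 < ε →
    ∃ D₀ : ℕ, ∀ D : ℕ, D₀ ≤ D → S D → ∀ B : Set (Fin M → ℕ),
      |share D (fun d => (fun j => corank q (part (N j * ∏ l ∈ T j, d l))) ∈ B) -
        ∑' b : B, ∏ j, α (b.1 j)| ≤ ε

/-- **(3)** The patterns of the good base points. -/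
def Patterns (q : ℕ) (S : ℕ → Prop) : Prop :=
  ∀ (M n : ℕ) (N : Fin M → ℕ), (∀ j, Class q (N j)) → Function.Injective N → ∀ ε : ℝ, 0 < ε →
    ∃ D₀ : ℕ, ∀ D : ℕ, D₀ ≤ D → S D →
      (∀ Q : Finset (Fin M),
        |share D (fun d : Fin n → ℕ => Independent d ∧ ∀ j, (Good q (N j) d ↔ j ∈ Q)) -
          (κ ^ (2 ^ n - 1)) ^ Q.card * (1 - κ ^ (2 ^ n - 1)) ^ (M - Q.card)| ≤ ε) ∧
      (0 < M → ∀ η : ℝ, 0 < η → share D (fun d : Fin n → ℕ =>
        η ≤ |(goods q N d : ℝ) / M - κ ^ (2 ^ n - 1)|) ≤ 2 * Real.exp (-(η ^ 2 * M / 4)) + ε)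

/-- **(4)** Stability in all the weights. -/
def StableInside (q : ℕ) (S : ℕ → Prop) : Prop :=
  ∀ (M n : ℕ) (N : Fin M → ℕ), (∀ j, Class q (N j)) → Function.Injective N → ∀ ε : ℝ, 0 < ε →
    ∃ D₀ : ℕ, ∀ D : ℕ, D₀ ≤ D → S D →
      (κ ^ (2 ^ n - 1)) ^ M - ε ≤ share D (fun d : Fin n → ℕ =>
        Independent d ∧ ∀ j, AllStable q (N j) d) ∧
      1 - (1 - κ ^ (2 ^ n - 1)) ^ M - ε ≤ share D (fun d : Fin n → ℕ =>
        Independent d ∧ ∃ j, AllStable q (N j) d)

/-- **(5)** One infinite multiquadratic extension for finitely many base points and all the weights. -/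
def InfiniteExtension (q : ℕ) : Prop :=
  ∀ B : Finset ℕ, (∀ N ∈ B, Class q N) → ∃ d : ℕ → ℕ, (∀ k, Sub (d k)) ∧
    (∀ T : Finset ℕ, T.Nonempty → ¬ IsSquare (∏ k ∈ T, d k)) ∧
    ∀ N ∈ B, ∀ n : ℕ, AllStable q N fun l : Fin n => d l

/-- The number of the `D ≤ X` with the property `P`. -/
noncomputable def count (P : ℕ → Prop) (X : ℕ) : ℕ := ((Finset.Icc 1 X).filter P).card

section proof

open _root_.Q283.LP
open _root_.Q155.NL (Cl Alm)
open _root_.Q283.GS (al)
open Pool.Agent.Q274.BKC (GK val IsSel Sel B1)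

lemma over_iff {K : Type} [Field K] (s : K) (χ : G K →* ℤ_[2]ˣ) (H : Subgroup (G K)) (c : H → ℚ_[2]) :
    IsSelmerOver s χ H c ↔ SelOn s χ H c :=
  ⟨fun h => ⟨h.1, h.2.1, h.2.2.1, h.2.2.2⟩, fun h => ⟨h.cont, h.coc, h.ine, h.dec⟩⟩

lemma over_eq {K : Type} [Field K] (s : K) (χ : G K →* ℤ_[2]ˣ) (H : Subgroup (G K)) :
    selmerOver s χ H = SelO s χ H := Submodule.ext fun c => over_iff s χ H c

lemma rank_over_eq {K : Type} [Field K] (s : K) (χ : G K →* ℤ_[2]ˣ) (H : Subgroup (G K)) :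
    Module.rank ℚ_[2] (H1fOver s χ H) = Module.rank ℚ_[2] (H1fO s χ H) := by
  have key : ∀ W W' : Submodule ℚ_[2] (H → ℚ_[2]), W = W' →
      Module.rank ℚ_[2] (W ⧸ (coboundariesOver χ H).comap W.subtype) =
      Module.rank ℚ_[2] (W' ⧸ (B1O χ H).comap W'.subtype) := by
    rintro W _ rfl
    rfl
  exact key _ _ (over_eq s χ H)

lemma field_eq {K : Type} [Field K] {n : ℕ} (d : Fin n → ℕ) :
    field K d = LF fun l => ((d l : ℕ) : K) := by
  unfold field LF
  congr 1

lemma group_eq {K : Type} [Field K] {n : ℕ} (d : Fin n → ℕ) :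
    groupOf K d = (LF fun l => ((d l : ℕ) : K)).fixingSubgroup := by
  unfold groupOf
  rw [field_eq]

lemma quad_iff {K : Type} [Field K] (a : K) (ψ : G K →* ℤ_[2]ˣ) : IsQuadratic a ψ ↔ IsQd a ψ := Iff.rfl

lemma wide_iff (D : ℕ) : Wide D ↔ W1 D := Iff.rfl

lemma sub_iff (D : ℕ) : Sub D ↔ W8 D := Iff.rfl

lemma class_wide {q N : ℕ} (h : Class q N) : W1 N := ⟨h.1, fun p hp hd => (h.2.1 p hp hd).1⟩

lemma class_part {q N : ℕ} (h7 : q % 8 = 7) (h : Class q N) {n : ℕ} {d : Fin n → ℕ} (hd : ∀ l, Sub (d l))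
    (T : Finset (Fin n)) : Class q (part (N * ∏ l ∈ T, d l)) := by
  have h1 := w1_sqn (class_wide h) (fun l => (hd l).1) T
  have h2 := sqn_mod8 (class_wide h) hd T
  have h3 : sqn (N * ∏ l ∈ T, d l) = part (N * ∏ l ∈ T, d l) := rfl
  rw [h3] at h1 h2
  refine ⟨h1.1, fun p hp hpd => ⟨h1.2 p hp hpd, ?_⟩, ?_⟩
  · rintro rfl
    have := h1.2 p hp hpd
    omega
  · have h4 := h.2.2
    obtain ⟨z, hz⟩ := h4
    obtain ⟨w, hw⟩ : ∃ w : ℤ, ((part (N * ∏ l ∈ T, d l) : ℕ) : ℤ) = N + 8 * w := by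
      refine ⟨((part (N * ∏ l ∈ T, d l) : ℕ) : ℤ) / 8 - (N : ℤ) / 8, ?_⟩
      have h5 : ((part (N * ∏ l ∈ T, d l) : ℕ) : ℤ) % 8 = (N : ℤ) % 8 := by exact_mod_cast h2
      omega
    exact ⟨z + w, by rw [hw]; linear_combination hz⟩

lemma part_self {N : ℕ} (h : Squarefree N) : part N = N := sqn_of_sqf h

/-- (1) -/
theorem over_fields {q : ℕ} (hq : q.Prime) (h7 : q % 8 = 7) : OverFields q := by
  intro K _ _ s t hst N hN n d hd i χ hc hχ
  obtain ⟨hK, hs, ht, ht4⟩ := hst
  obtain ⟨hW, -⟩ := Pool.Agent.Results.MP_787500_nt.AllWeights.result q hq h7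
  have hd0 : ∀ l, ((d l : ℕ) : K) ≠ 0 := fun l => Nat.cast_ne_zero.2 (hd l).1.1.ne_zero
  choose ψ hψ using fun l => exists_qd (hd0 l)
  have hT : ∀ T : Finset (Fin n), Continuous (χ * ∏ l ∈ T, ψ l : G K →* ℤ_[2]ˣ) ∧
      HasWeight q (part (N * ∏ l ∈ T, d l)) i s t (χ * ∏ l ∈ T, ψ l) := by
    intro T
    refine ⟨cont_mul hc (cont_prodT (fun l => cont_qd (hd0 l) (hψ l)) T), ?_⟩
    refine hχ (∏ l ∈ T, d l) _ (Finset.prod_ne_zero_iff.2 fun l _ => (hd l).1.1.ne_zero) ?_
    have h1 := qd_prod hd0 hψ T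
    rw [← Nat.cast_prod] at h1
    exact h1
  have hB : ∀ T : Finset (Fin n), Module.rank ℚ_[2] (Pool.Agent.Q274.BKC.H1f s (χ * ∏ l ∈ T, ψ l)) ≤
      ((2 * corank q (part (N * ∏ l ∈ T, d l)) : ℕ) : Cardinal) := by
    intro T
    have h1 := (hW K s t hK hs ht ht4 _ (class_part h7 hN hd T) i _ (hT T).1 (hT T).2).1
    rwa [Pool.Agent.Results.MP_787500_nt.AllWeights.rank_eq] at h1
  have hZ : ∀ T : Finset (Fin n), corank q (part (N * ∏ l ∈ T, d l)) = 0 →
      ∀ x : Pool.Agent.Q274.BKC.H1f s (χ * ∏ l ∈ T, ψ l), x = 0 := by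
    intro T h0
    have h1 := hB T
    rw [h0, mul_zero, Nat.cast_zero] at h1
    exact rank_zero_iff_forall_zero.1 (le_antisymm h1 zero_le)
  have hrank : Module.rank ℚ_[2] (H1fOver s χ (groupOf K d)) ≤
      ((2 * totalCorank q N d : ℕ) : Cardinal) := by
    unfold totalCorank
    rw [rank_over_eq, group_eq, Finset.mul_sum]
    exact rank_multi hd0 hψ hB
  refine ⟨hrank, fun hG => ?_, fun hG h0 => ?_⟩
  · have h1 := bij_multi hd0 hψ (s := s) (χ := χ) fun T hT => hZ T (hG T hT)
    refine ⟨fun c hcS => ?_, ?_⟩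
    · rw [over_iff] at hcS
      have h2 : ∀ (H H' : Subgroup (G K)), H = H' →
          (∀ c : H → ℚ_[2], SelOn s χ H c → ∃ C : G K → ℚ_[2],
            IsSel s χ C ∧ ∃ y : ℚ_[2], ∀ σ : H, c σ = C σ + (val χ σ - 1) * y) →
          (∀ c : H' → ℚ_[2], SelOn s χ H' c → ∃ C : G K → ℚ_[2],
            IsSel s χ C ∧ ∃ y : ℚ_[2], ∀ σ : H', c σ = C σ + (val χ σ - 1) * y) := by
        rintro H _ rfl h
        exact h
      obtain ⟨C, hC, y, hy⟩ := h2 _ _ (group_eq d).symm (fun c hc => surj_expl h1.2 hc) c hcS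
      exact ⟨C, (Pool.Agent.Results.MP_787500_nt.AllWeights.sel_iff s χ C).2 hC, y, hy⟩
    · have h3 : dimensionOver s χ (groupOf K d) = Module.rank ℚ_[2] (H1fOver s χ (groupOf K d)) := rfl
      have h4 : dimension s χ = Module.rank ℚ_[2] (H1f s χ) := rfl
      rw [h3, h4, rank_over_eq, group_eq, Pool.Agent.Results.MP_787500_nt.AllWeights.rank_eq]
      exact (LinearEquiv.ofBijective _ h1).rank_eq.symm
  · have h1 : totalCorank q N d = 0 := by
      unfold totalCorank
      refine Finset.sum_eq_zero fun T _ => ?_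
      by_cases hT : T.Nonempty
      · exact hG T hT
      · rw [Finset.not_nonempty_iff_eq_empty.1 hT, Finset.prod_empty, mul_one, part_self hN.1]
        exact h0
    rw [h1, mul_zero, Nat.cast_zero] at hrank
    exact rank_zero_iff_forall_zero.1 (le_antisymm hrank zero_le)

lemma tuples_eq (n D : ℕ) : tuples n D = I8 n D := rfl

lemma share_eq {n D : ℕ} (P : (Fin n → ℕ) → Prop) :
    share D P = cE (I8 n D) P / (I8 n D).card := rfl

lemma abs_share {n D : ℕ} (hD : D ≠ 0) {P : (Fin n → ℕ) → Prop} {w ε : ℝ}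
    (h : |cE (I8 n D) P - w * (I8 n D).card| ≤ ε * (I8 n D).card) : |share D P - w| ≤ ε := by
  have hpos := I8_pos (n := n) hD
  have h5 : share D P - w = (cE (I8 n D) P - w * (I8 n D).card) / ((I8 n D).card : ℝ) := by
    rw [share_eq]
    field_simp
  rw [h5, abs_div, abs_of_pos hpos, div_le_iff₀ hpos]
  exact h

lemma share_le {n D : ℕ} (hD : D ≠ 0) {P : (Fin n → ℕ) → Prop} {ε : ℝ}
    (h : cE (I8 n D) P ≤ ε * (I8 n D).card) : share D P ≤ ε := by
  rw [share_eq, div_le_iff₀ (I8_pos (n := n) hD)]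
  exact h

lemma share_mono {n D : ℕ} {P Q : (Fin n → ℕ) → Prop} (h : ∀ d ∈ I8 n D, P d → Q d) :
    share D P ≤ share D Q := by
  rw [share_eq, share_eq]
  exact div_le_div_of_nonneg_right (cE_mono h) (Nat.cast_nonneg _)

lemma share_or {n D : ℕ} (P Q : (Fin n → ℕ) → Prop) :
    share D (fun d => P d ∨ Q d) ≤ share D P + share D Q := by
  rw [share_eq, share_eq, share_eq, ← add_div]
  exact div_le_div_of_nonneg_right (cE_or P Q) (Nat.cast_nonneg _)

lemma share_not {n D : ℕ} (hD : D ≠ 0) (P : (Fin n → ℕ) → Prop) :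
    share D P = 1 - share D fun d => ¬ P d := by
  have hpos := I8_pos (n := n) hD
  have h1 := cE_not (I := I8 n D) P
  rw [share_eq, share_eq, eq_sub_iff_add_eq, ← add_div, h1, div_self hpos.ne']

lemma al_eq (b : ℕ) : al b = α b := by
  have h : ∀ r, Y697.PQ.cf r = (∏ i ∈ Finset.range r, ((2 : ℝ) ^ (i + 1) - 1))⁻¹ := by
    intro r
    induction r with
    | zero => simp [Y697.PQ.cf]
    | succ r ih =>
      rw [show Y697.PQ.cf (r + 1) = Y697.PQ.cf r / (2 ^ (r + 1) - 1) from rfl, ih,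
        Finset.prod_range_succ, mul_inv, div_eq_mul_inv]
  have h1 : al b = Y703.CQ.c2 * Y697.PQ.cf b := rfl
  rw [h1, h, ← div_eq_mul_inv]
  rfl

lemma good_iff {q : ℕ} {n : ℕ} (N : ℕ) (d : Fin n → ℕ) :
    Good q N d ↔ ∀ T : Finset (Fin n), T.Nonempty → crk q N T d = 0 := Iff.rfl

lemma ind_iff {n : ℕ} (d : Fin n → ℕ) : Independent d ↔ IdN d := Iff.rfl

lemma sub_of {n D : ℕ} (hD : D ≠ 0) {d : Fin n → ℕ} (h : d ∈ I8 n D) (l : Fin n) : Sub (d l) :=
  ((mem_I8 hD).1 h l).1

lemma stable_of {q : ℕ} (hq : q.Prime) (h7 : q % 8 = 7) {N : ℕ} (hN : Class q N) {n : ℕ}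
    {d : Fin n → ℕ} (hd : ∀ l, Sub (d l)) (hG : Good q N d) : AllStable q N d := by
  intro K _ _ s t hst i χ hc hχ
  exact (over_fields hq h7 K s t hst N hN n d hd i χ hc hχ).2.1 hG

lemma law_of' {q : ℕ} {S : ℕ → Prop} (h : Laws q S) : Law q S := by
  intro M n N T hN hT hd ε hε
  obtain ⟨D₀, hD₀⟩ := eventually_atTop.1 ((h.law M n N T (fun j => class_wide (hN j)) hT hd ε hε).and
    (eventually_ne_atTop 0))
  refine ⟨D₀, fun D hD hS B => ?_⟩
  obtain ⟨h1, hD0⟩ := hD₀ D hD
  have h2 := abs_share hD0 (h1 hS B)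
  have h3 : muR B = ∑' b : B, ∏ j, α (b.1 j) := by
    unfold muR
    exact tsum_congr fun b => Finset.prod_congr rfl fun j _ => al_eq _
  rw [h3] at h2
  exact h2

lemma κ_eq : al 0 = κ := by
  rw [al_eq]
  unfold α
  simp

lemma pat_of' {q : ℕ} {S : ℕ → Prop} (h : Laws q S) : Patterns q S := by
  intro M n N hN hinj ε hε
  have h1 := h.pat M n N (fun j => class_wide (hN j)) hinj ε hε
  have h2 : ∀ᶠ D in atTop, S D → 0 < M → ∀ η : ℝ, 0 < η →
      cE (I8 n D) (fun d => η ≤ |(nJ (Fin M) (fun j => ∀ T : Finset (Fin n), T.Nonempty →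
        crk q (N j) T d = 0) : ℝ) / M - al 0 ^ (2 ^ n - 1)|) ≤
        (2 * Real.exp (-(η ^ 2 * M / 4)) + ε) * (I8 n D).card := by
    by_cases hM : 0 < M
    · filter_upwards [h.lln M n N (fun j => class_wide (hN j)) hinj hM ε hε] with D hD hS _
      exact hD hS
    · exact Eventually.of_forall fun D _ h => absurd h hM
  obtain ⟨D₀, hD₀⟩ := eventually_atTop.1 ((h1.and h2).and (eventually_ne_atTop 0))
  refine ⟨D₀, fun D hD hS => ?_⟩
  obtain ⟨⟨k1, k2⟩, hD0⟩ := hD₀ D hD
  refine ⟨fun Q => ?_, fun hM η hη => ?_⟩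
  · have h3 := k1 hS Q
    rw [κ_eq] at h3
    exact abs_share hD0 h3
  · have h3 := k2 hS hM η hη
    rw [κ_eq] at h3
    refine share_le hD0 (le_trans (le_of_eq (cE_congr fun d _ => ?_)) h3)
    have h4 : goods q N d = nJ (Fin M) (fun j => ∀ T : Finset (Fin n), T.Nonempty →
        crk q (N j) T d = 0) := by
      unfold goods nJ
      exact fcc fun j _ => Iff.rfl
    rw [h4]

lemma κ_bd : 0.4194 < κ ∧ κ < 0.4195 := Pool.Agent.Q274.BKC.kappa_bounds

lemma stab_of' {q : ℕ} (hq : q.Prime) (h7 : q % 8 = 7) {S : ℕ → Prop} (h : Laws q S) :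
    StableInside q S := by
  intro M n N hN hinj ε hε
  obtain ⟨k1, k2⟩ := κ_bd
  obtain ⟨D₁, h1⟩ := pat_of' h M n N hN hinj (ε / 2) (by positivity)
  obtain ⟨D₂, h2⟩ := eventually_atTop.1 ((h.dep n (ε / 2) (by positivity)).and (eventually_ne_atTop 0))
  refine ⟨max D₁ D₂, fun D hD hS => ?_⟩
  obtain ⟨p1, -⟩ := h1 D (le_of_max_le_left hD) hS
  obtain ⟨p2, hD0⟩ := h2 D (le_of_max_le_right hD)
  constructor
  · have h3 := (abs_le.1 (p1 Finset.univ)).1
    rw [Finset.card_univ, Fintype.card_fin, Nat.sub_self, pow_zero, mul_one] at h3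
    have h4 : share D (fun d : Fin n → ℕ => Independent d ∧ ∀ j, (Good q (N j) d ↔ j ∈ Finset.univ)) ≤
        share D (fun d : Fin n → ℕ => Independent d ∧ ∀ j, AllStable q (N j) d) := by
      refine share_mono fun d hd hdP => ⟨hdP.1, fun j => ?_⟩
      exact stable_of hq h7 (hN j) (sub_of hD0 hd) ((hdP.2 j).2 (Finset.mem_univ j))
    linarith
  · have h3 := (abs_le.1 (p1 ∅)).2
    rw [Finset.card_empty, pow_zero, one_mul, Nat.sub_zero] at h3
    have h4 := share_not (n := n) hD0 (fun d : Fin n → ℕ => Independent d ∧ ∃ j, AllStable q (N j) d)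
    have h5 : share D (fun d : Fin n → ℕ => ¬ (Independent d ∧ ∃ j, AllStable q (N j) d)) ≤
        share D (fun d : Fin n → ℕ => Independent d ∧ ∀ j, (Good q (N j) d ↔ j ∈ (∅ : Finset (Fin M)))) +
        share D (fun d : Fin n → ℕ => ¬ Independent d) := by
      refine le_trans (share_mono fun d hd hdP => ?_) (share_or _ _)
      by_cases hI : Independent d
      · refine Or.inl ⟨hI, fun j => iff_of_false (fun hG => hdP ⟨hI, j, ?_⟩) (Finset.notMem_empty j)⟩
        exact stable_of hq h7 (hN j) (sub_of hD0 hd) hG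
      · exact Or.inr hI
    have h6 : share D (fun d : Fin n → ℕ => ¬ Independent d) ≤ ε / 2 := share_le hD0 (p2 hS)
    linarith

lemma inf_of {q : ℕ} (hq : q.Prime) (h7 : q % 8 = 7) {S : ℕ → Prop} (hS : Alm (fun _ => True) S)
    (h : Laws q S) : InfiniteExtension q := by
  intro B hB
  obtain ⟨d, h1, h2, h3⟩ := inf_seq hS h B fun N hN => class_wide (hB N hN)
  refine ⟨d, h1, h2, fun N hN n => stable_of hq h7 (hB N hN) (fun l => h1 l) fun T hT => ?_⟩
  have h4 := h3 N hN (T.map Fin.valEmbedding) (Finset.map_nonempty.2 hT)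
  rw [Finset.prod_map] at h4
  exact h4

end proof

open _root_.Q283.LP in
open _root_.Q155.NL (Cl Alm) in
/-- **Bloch–Kato Selmer groups of all weights over the number fields inside almost every integer.** -/
theorem result : (∃ S : ℕ → Prop,
      Tendsto (fun X : ℕ => (count S X : ℝ) / X) atTop (𝓝 1) ∧
      Tendsto (fun X : ℕ => (count (fun D => Wide D ∧ S D) X : ℝ) / count Wide X) atTop (𝓝 1) ∧
      ∀ q : ℕ, q.Prime → q % 8 = 7 →
        OverFields q ∧ Law q S ∧ Patterns q S ∧ StableInside q S ∧ InfiniteExtension q) ∧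
    0.4194 < κ ∧ κ < 0.4195 := by
  refine ⟨?_, κ_bd⟩
  obtain ⟨S, hS, hS', hL⟩ := main8
  refine ⟨S, ?_, ?_, fun q hq h7 => ⟨over_fields hq h7, law_of' (hL q hq h7), pat_of' (hL q hq h7),
    stab_of' hq h7 (hL q hq h7), inf_of hq h7 hS (hL q hq h7)⟩⟩
  · have h1 := Q155.NL.tendsto_of_alm (C := fun _ => True) ⟨1, le_rfl, trivial⟩ hS
    refine h1.congr fun X => ?_
    have h2 : Q155.NL.cnt (fun _ => True) X = X := by
      have h0 : Q155.NL.cs (fun _ => True) X = Finset.Icc 1 X := by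
        ext D
        rw [Q155.NL.mem_cs, Finset.mem_Icc]
        exact ⟨fun h => h.1, fun h => ⟨h, trivial⟩⟩
      unfold Q155.NL.cnt
      rw [h0, Nat.card_Icc]
      omega
    rw [h2]
    congr 2
    unfold Q155.NL.cnt Q155.NL.cs count
    congr 1
    ext D
    simp
  · have h1 := Q155.NL.tendsto_of_alm (C := W1) ⟨1, le_rfl, squarefree_one, fun p hp h =>
      absurd (Nat.dvd_one.1 h) hp.one_lt.ne'⟩ hS'
    refine h1.congr fun X => ?_
    unfold Q155.NL.cnt Q155.NL.cs count
    congr 3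

end Pool.Agent.Results.MP_787500_nt.AllWeightsInsideDivisors
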