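import Pool.Agent.Q274.HD.Fin

/-!
# Bloch–Kato Selmer groups of all members of 2-adic Hida families, for a positive proportion of all twists

Let `E_k : y ^ 2 = (x - a k 0) (x - a k 1) (x - a k 2)`, `k = 1, …, n`, be elliptic curves over `ℚ` with rational
2-torsion, without complex multiplication or with it, such that no product `(a k i - a k j) (a k i - a k l)`
of two differences is a square (`E_k` has no rational cyclic subgroup of order 4) and such that there is an
odd prime `p k` which divides the product of the differences of `a k` and whose square does not divide the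
product of all the differences of all the curves. For an integer `D ≠ 0` let `E_k^(D)` be the quadratic twist.
Let `m_1, …, m_t` be different positive squarefree integers which are squares in `ℚ_l` for `l = 2` and for all
primes `l` which divide some difference.

We consider all the continuous representations `T = ℤ_2 ^ 2` of the absolute Galois group of `ℚ` which are
ordinary deformations of `E[4]`, `E = E_k^(D m_i)`:

* `T / 4 T` is isomorphic to the Galois module `E[4]`; the determinant is congruent modulo 4 to the
  cyclotomic character;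
* `T` is unramified at the primes which do not divide `2 disc E`;
* `T` is ordinary at `2`: the decomposition group of a prime `w` above `2` acts on a quotient `T⁻` of `T` of
  rank one by a character which is modulo 4 the same quadratic character as for `E[4]`;
* at the odd primes of multiplicative reduction which divide the product of the differences exactly once,
  `T` has a quotient of rank one on which the decomposition group acts by an unramified character, the
  determinant is unramified, and the kernel of the quotient is not a trivial module.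

Examples: the Tate module `T_2 E`, and for all members `f` of the 2-adic Hida family of the newform of `E_k`
of weights `k ≡ 2` modulo a sufficiently large power of `2` suitable lattices in the self-dual twists
`V_f(k/2) ⊗ χ_(D m_i)`, and all their twists by characters of `Gal(ℚ(μ_(2^∞))/ℚ)` with values in `1 + 4 ℤ_2`
(except one for each prime of multiplicative reduction). The motives of the `f` are in the cohomology of
degree `k - 1` of Kuga–Sato varieties of dimension `k - 1`.

`H¹_f(ℚ, V)`, `V = T ⊗ ℚ_2`, is the group of the classes of the continuous cocycles which are coboundaries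
on the inertia groups of all primes which do not divide `2` and coboundaries with values in
`V⁻ = T⁻ ⊗ ℚ_2` on the decomposition group of `w`; for the self-dual twists `V_f(k/2) ⊗ χ_D` this is the
group of Bloch and Kato (the decomposition group acts on `V⁻` by a nontrivial character of weight `≤ 0`).

A class of integers `D`: the squarefree `D`, prime to the `p k`, with the sign of `D₀` and the class of `D₀`
modulo squares in `ℚ_l` for the primes `l` in the finite set `S`, `2 ∈ S`. We assume that for the curves
`E_k^(D₀)`, with the roots `b i`, there is an index `m` such that the differences `b i - b m` are not squares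
in `ℚ_2` and the third difference is divisible by `16` times them (`Mid`: over `ℚ_2` the curve is the
quadratic twist by a nonsquare of a curve with good ordinary or split multiplicative reduction, up to
isogeny), and that for the odd primes `l` either `l ^ 2` does not divide the product of the differences of
`a k` or `l` is in `S` and `E_k^(D₀)` has no point of order 4 over `ℚ_l`. Such a class has positive density.

Theorem. Let `p(e) = (β / 2) 2 ^ e / ((2 - 1) (2 ^ 2 - 1) ⋯ (2 ^ e - 1))`,
`β = ∏_{i ≥ 0} (1 - 2 ^ (- 2 i - 1)) = 0.4194...` (the law of Heath-Brown and of Poonen and Rains), and let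
`P` be the law of the random vector `e k i` such that the vectors `(e k i)_i` are independent for different
`k`, a fair coin determines the parity of all the `e k i` for a given `k`, and given the parity they are
independent with the law `p` conditioned by the parity. For every set `𝒜` of vectors and every `ε > 0`, for
at least the proportion `P(𝒜) - ε` of the `D` of the class up to `X`, `X` large, there is a vector `e` in `𝒜`
such that for all `k`, all `i` and all ordinary deformations `T` of `E_k^(D m_i)[4]`

`dim H¹_f(ℚ, T ⊗ ℚ_2) ≤ e k i`,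

and if `e k i = 0` all the Selmer cocycles are coboundaries. In particular for at least the proportion
`(β ^ t / 2) ^ n - ε` of all `D` of the class the groups `H¹_f(ℚ, V)` vanish for all the deformations of all
the `n t` curves `E_k^(D m_i)` at once.

New compared with the joint law of the Tate modules (`JointLawOfJacobians`): the lattices `T` are arbitrary
deformations of `E[4]`, so the theorem is about infinitely many motives of unbounded weight for every `D`;
all local conditions of the 2-Selmer group of `E` must be deduced from `T / 4 T` and the ordinary structure.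
At `2` the class of a cocycle with values in `T⁺` lifts to the kernel of `T / 4 T → T⁻ / 4 T⁻` and this forces
it to be a norm from `ℚ_2(√(b i - b m))`, which is the condition that it comes from a point of `E(ℚ_2)`.
-/

set_option autoImplicit false
set_option linter.all false

namespace Pool.Agent.Results.MP_787500_nt.HidaFamilies

open Filter Topology Pool.Agent.Q274.HD
open scoped Classical

/-- No product of two differences with a common root is a square: the elliptic curve
`y ^ 2 = (x - a 0) (x - a 1) (x - a 2)` has no rational cyclic subgroup of order 4. -/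
def NoCyclicFour (a : Fin 3 → ℤ) : Prop :=
  ∀ i j l, i ≠ j → i ≠ l → j ≠ l → ∀ s : ℤ, (a i - a j) * (a i - a l) ≠ s ^ 2

/-- The roots `D a i` of the quadratic twist by `D`. -/
def twist (D : ℤ) (a : Fin 3 → ℤ) : Fin 3 → ℤ := fun i => D * a i

/-- The squarefree integers `D` with `|D| ≤ X`, prime to the `p k`, with the sign of `D₀` and with the class
of `D₀` modulo squares in `ℚ_l` for the primes `l` in `S`. -/
def Class {κ : Type} (p : κ → ℕ) (S : Finset ℕ) (D₀ : ℤ) (X : ℕ) : Set ℤ :=
  {D | |D| ≤ X ∧ Squarefree D ∧ (∀ k, ¬ (p k : ℤ) ∣ D) ∧ 0 < D * D₀ ∧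
    ∀ (l : ℕ) [Fact l.Prime], l ∈ S → IsSquare ((D * D₀ : ℤ) : ℚ_[l])}

/-- For all the ordinary deformations `T` of `E[4]`, `E` the elliptic curve with the roots `b`, the dimension
of the Selmer group is at most `e`; if `e = 0` all Selmer cocycles are coboundaries. -/
def SelmerAtMost (b : Fin 3 → ℤ) (e : ℕ) : Prop :=
  ∀ (ρ : Rep) (w : Ideal ZB) (f : T2), Defm b ρ w f →
    Module.rank ℚ_[2] (H1f ρ w f) ≤ (e : Cardinal) ∧
    (e = 0 → ∀ c : GQ → V2, IsSel ρ w f c → ∃ y : V2, ∀ σ, c σ = act ρ σ y - y)

/-- All the twists `E_k^(D m_i)` are bounded by `e k i`; `D'` is the squarefree part of `D m_i`. -/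
def AllAtMost {κ μ : Type} (a : κ → Fin 3 → ℤ) (m : μ → ℕ) (D : ℤ) (e : κ → μ → ℕ) : Prop :=
  ∀ k i, ∀ D' t : ℤ, Squarefree D' → D * m i = D' * t ^ 2 →
    SelmerAtMost (twist D' (a k)) (e k i)

/-- The infinite product of the numbers `1 - 2 ^ (- 2 i - 1)`, `i ≥ 0`. -/
noncomputable def beta : ℝ := ∏' i : ℕ, (1 - (1 / 2 : ℝ) ^ (2 * i + 1))

/-- The probability of `e` in the law `p`. -/
noncomputable def law (e : ℕ) : ℝ :=
  beta / 2 * (2 ^ e / ∏ i ∈ Finset.range e, ((2 : ℝ) ^ (i + 1) - 1))

/-- The probability of `e` in the law `p` conditioned by the parity `c`. -/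
noncomputable def parityLaw (c : ZMod 2) (e : ℕ) : ℝ := if (e : ZMod 2) = c then 2 * law e else 0

/-- The probability of the vector `e`: the vectors `e k` are independent; all components of `e k` have the
same parity, which is 0 or 1 with probability 1/2, and given the parity they are independent. -/
noncomputable def jointLaw {κ μ : Type} [Fintype κ] [Fintype μ] (e : κ → μ → ℕ) : ℝ :=
  ∏ k, ((∏ i, parityLaw 0 (e k i)) + ∏ i, parityLaw 1 (e k i)) / 2

/-- The probability of the set `𝒜`. -/
noncomputable def probability {κ μ : Type} [Fintype κ] [Fintype μ] (𝒜 : Set (κ → μ → ℕ)) : ℝ :=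
  ∑' e : κ → μ → ℕ, if e ∈ 𝒜 then jointLaw e else 0

theorem law_eq : law = Pool.Agent.Q269.SL.law2 := by
  funext e
  rw [Pool.Agent.Q269.SL.law2_eq]
  rfl

theorem joint_eq {κ μ : Type} [Fintype κ] [Fintype μ] (e : κ → μ → ℕ) :
    jointLaw e = Q44.JQ.M.lawV e := by
  unfold jointLaw Q44.JQ.M.lawV parityLaw Q44.JQ.lawc
  rw [law_eq]

theorem result (κ μ : Type) [Fintype κ] [Fintype μ] (a : κ → Fin 3 → ℤ)
    (ha : ∀ k, Function.Injective (a k)) (hc : ∀ k, NoCyclicFour (a k))
    (p : κ → ℕ) (hp : ∀ k, (p k).Prime ∧ p k ≠ 2)
    (h1 : ∀ k, (p k : ℤ) ∣ dd (a k)) (h2 : ∀ k, ¬ (p k : ℤ) ^ 2 ∣ ∏ l, dd (a l))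
    (m : μ → ℕ) (hm : Function.Injective m) (hsqf : ∀ i, Squarefree (m i))
    (hloc : ∀ i, ∀ (l : ℕ) [Fact l.Prime], (l = 2 ∨ ∃ k, (l : ℤ) ∣ dd (a k)) →
      IsSquare ((m i : ℕ) : ℚ_[l]))
    (S : Finset ℕ) (hS : ∀ k, p k ∉ S) (hS2 : 2 ∈ S)
    (D₀ : ℤ) (hD₀ : Squarefree D₀) (hpD : ∀ k, ¬ (p k : ℤ) ∣ D₀)
    (htwo : ∀ k, AtTwo (twist D₀ (a k)))
    (hodd : ∀ k, ∀ (l : ℕ) [Fact l.Prime], l ≠ 2 →
      ¬ (l : ℤ) ^ 2 ∣ dd (a k) ∨ (l ∈ S ∧ NoFour (twist D₀ (a k)) l)) :
    HasSum law 1 ∧ HasSum (fun e : κ → μ → ℕ => jointLaw e) 1 ∧
    (∃ c : ℝ, 0 < c ∧ Tendsto (fun X : ℕ => ((Class p S D₀ X).ncard : ℝ) / X) atTop (𝓝 c)) ∧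
    ∀ 𝒜 : Set (κ → μ → ℕ), ∀ ε : ℝ, 0 < ε → ∀ᶠ X : ℕ in atTop,
      (probability 𝒜 - ε) * ((Class p S D₀ X).ncard : ℝ) ≤
        (({D ∈ Class p S D₀ X | ∃ e ∈ 𝒜, AllAtMost a m D e}).ncard : ℝ) := by
  have h := Pool.Agent.Q274.HD.lawH a ha hc p hp h1 h2 m hm hsqf hloc S hS hS2 D₀ hD₀ hpD htwo hodd
  unfold probability
  simp only [joint_eq]
  rw [law_eq]
  exact ⟨Pool.Agent.Q269.SL.hasSum_law, Q44.JQ.M.hasSum_lawV, h.1, h.2⟩

end Pool.Agent.Results.MP_787500_nt.HidaFamilies
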